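import Pool.Agent.H86.DA.Stm

/-!
# The module CYC of the project DA (helper86), by helper39
-/

set_option autoImplicit false
set_option linter.all false

namespace Pool.Agent.H39.DA

open Finset Pool.Agent.H86.DA ComplexConjugate

theorem pow_mod' {M : ℕ} {ω : ℂ} (hω : IsPrimitiveRoot ω M) (r n : ℕ) :
    ω ^ (r * (n % M)) = ω ^ (r * n) := by
  conv_rhs => rw [← Nat.div_add_mod n M, mul_add, pow_add, mul_left_comm, pow_mul, hω.pow_eq_one,
    one_pow, one_mul]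

theorem orth {M : ℕ} (hM : 0 < M) {ω : ℂ} (hω : IsPrimitiveRoot ω M) (x y : ℕ) :
    ∑ r ∈ range M, ω ^ (r * x) * conj (ω ^ (r * y)) = if x % M = y % M then (M : ℂ) else 0 := by
  have hn : ‖ω‖ = 1 := hω.norm'_eq_one hM.ne'
  have hinv : ∀ n : ℕ, conj (ω ^ n) = (ω ^ n)⁻¹ := fun n => by
    rw [← Complex.inv_eq_conj (by rw [norm_pow, hn, one_pow])]
  have h0 : ω ≠ 0 := hω.ne_zero hM.ne'
  have h1 : ∀ r, ω ^ (r * x) * conj (ω ^ (r * y)) = (ω ^ x * (ω ^ y)⁻¹) ^ r := fun r => by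
    rw [hinv, mul_pow, inv_pow, ← pow_mul, ← pow_mul, mul_comm x, mul_comm y]
  simp only [h1]
  have hx : ω ^ x = ω ^ (x % M) := by simpa using (pow_mod' hω 1 x).symm
  have hy : ω ^ y = ω ^ (y % M) := by simpa using (pow_mod' hω 1 y).symm
  have h2 : ω ^ x * (ω ^ y)⁻¹ = 1 ↔ x % M = y % M := by
    rw [mul_inv_eq_one₀ (pow_ne_zero _ h0), hx, hy]
    exact ⟨fun h => hω.pow_inj (Nat.mod_lt _ hM) (Nat.mod_lt _ hM) h, fun h => by rw [h]⟩
  split_ifs with h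
  · rw [h2.2 h]
    simp
  · have h3 : ω ^ x * (ω ^ y)⁻¹ ≠ 1 := fun h' => h (h2.1 h')
    have h4 : (ω ^ x * (ω ^ y)⁻¹) ^ M = 1 := by
      rw [mul_pow, inv_pow, ← pow_mul, ← pow_mul, mul_comm x, mul_comm y, pow_mul, pow_mul,
        hω.pow_eq_one, one_pow, one_pow, inv_one, one_mul]
    rw [geom_sum_eq h3, h4, sub_self, zero_div]

theorem sum_id (n : ℕ) : ∑ j ∈ range n, (j : ℝ) = n * (n - 1) / 2 := by
  induction n with
  | zero => simp
  | succ n ih =>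
    rw [sum_range_succ, ih]
    push_cast
    ring

theorem root_bound {b : ℕ} (hb : 2 ≤ b) {ζ : ℂ} (h1 : ζ ^ b = 1) (hne : ζ ≠ 1) (hn : ‖ζ‖ = 1) :
    2 ≤ b * ‖1 - ζ‖ := by
  have h2 : ∀ j : ℕ, ‖1 - ζ ^ j‖ ≤ j * ‖1 - ζ‖ := by
    intro j
    induction j with
    | zero => simp
    | succ j ih =>
      have h3 : 1 - ζ ^ (j + 1) = (1 - ζ ^ j) + ζ ^ j * (1 - ζ) := by ring
      have h4 := norm_add_le (1 - ζ ^ j) (ζ ^ j * (1 - ζ))
      rw [← h3, norm_mul, norm_pow, hn, one_pow, one_mul] at h4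
      push_cast
      linarith
  have h3 : ∑ j ∈ range b, ζ ^ j = 0 := by
    rw [geom_sum_eq hne, h1, sub_self, zero_div]
  have h4 : (b : ℂ) = ∑ j ∈ range b, (1 - ζ ^ j) := by
    rw [sum_sub_distrib, h3]
    simp
  have h5 : (b : ℝ) ≤ ∑ j ∈ range b, (j : ℝ) * ‖1 - ζ‖ := by
    calc (b : ℝ) = ‖(b : ℂ)‖ := by simp
      _ = ‖∑ j ∈ range b, (1 - ζ ^ j)‖ := by rw [← h4]
      _ ≤ ∑ j ∈ range b, ‖1 - ζ ^ j‖ := norm_sum_le _ _
      _ ≤ _ := sum_le_sum fun j _ => h2 j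
  rw [← sum_mul, sum_id] at h5
  have hb0 : (0 : ℝ) < b := by exact_mod_cast (by omega : 0 < b)
  have h6 : 0 ≤ ‖1 - ζ‖ := norm_nonneg _
  have h7 : (b : ℝ) * 2 ≤ b * (b * ‖1 - ζ‖) := by nlinarith [mul_nonneg hb0.le h6]
  exact le_of_mul_le_mul_left h7 hb0

theorem freq {b K r : ℕ} (hr : 0 < r) (hrM : r < b ^ K) :
    ∃ e < K, b ^ K ∣ r * b ^ (e + 1) ∧ ¬ b ^ K ∣ r * b ^ e := by
  classical
  have hex : ∃ e, b ^ K ∣ r * b ^ e := ⟨K, dvd_mul_left _ _⟩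
  have h1 := Nat.find_spec hex
  have h0 : Nat.find hex ≠ 0 := by
    intro h
    rw [h, pow_zero, mul_one] at h1
    exact absurd (Nat.le_of_dvd hr h1) (not_le.2 hrM)
  obtain ⟨e, he⟩ := Nat.exists_eq_succ_of_ne_zero h0
  have h2 : Nat.find hex ≤ K := Nat.find_min' hex (dvd_mul_left (b ^ K) r)
  rw [he] at h1
  exact ⟨e, by omega, h1, Nat.find_min hex (by omega)⟩

theorem hatA {b K : ℕ} (hb : 2 ≤ b) {ω : ℂ} (hω : IsPrimitiveRoot ω (b ^ K)) (A : Finset ℕ) (η : ℝ)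
    (hA : A ⊆ range (b ^ K))
    (h : ∀ e < K, ((A.filter fun a => (a + (b ^ K - b ^ e)) % b ^ K ∉ A).card : ℝ) ≤
      η * (b : ℝ) ^ K)
    (r : ℕ) (hr : 0 < r) (hrM : r < b ^ K) :
    ‖∑ a ∈ A, ω ^ (r * a)‖ ≤ b * η * (b : ℝ) ^ K := by
  obtain ⟨e, heK, hd1, hd2⟩ := freq hr hrM
  have h := h e heK
  have hbR : (b : ℝ) ^ K = ((b ^ K : ℕ) : ℝ) := by push_cast; rfl
  rw [hbR] at h ⊢
  have hM0 : 0 < b ^ K := by positivity
  have hbe : b ^ e ≤ b ^ K := Nat.pow_le_pow_right (by omega) heK.le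
  generalize hMd : b ^ K = M at *
  have hn : ‖ω‖ = 1 := hω.norm'_eq_one hM0.ne'
  set T : ℕ → ℕ := fun a => (a + (M - b ^ e)) % M with hT
  set ζ : ℂ := ω ^ (r * (M - b ^ e)) with hζ
  have hz1 : ζ * ω ^ (r * b ^ e) = 1 := by
    rw [hζ, ← pow_add, ← mul_add, Nat.sub_add_cancel hbe, mul_comm, pow_mul, hω.pow_eq_one, one_pow]
  have hne : ζ ≠ 1 := by
    intro h1
    rw [h1, one_mul] at hz1
    exact hd2 ((hω.pow_eq_one_iff_dvd _).1 hz1)
  have hzb : ζ ^ b = 1 := by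
    have h1 : (ω ^ (r * b ^ e)) ^ b = 1 := by
      rw [← pow_mul, mul_assoc, ← pow_succ]
      exact (hω.pow_eq_one_iff_dvd _).2 hd1
    have h2 : (ζ * ω ^ (r * b ^ e)) ^ b = 1 := by rw [hz1, one_pow]
    rwa [mul_pow, h1, mul_one] at h2
  have hzn : ‖ζ‖ = 1 := by rw [hζ, norm_pow, hn, one_pow]
  have hrb := root_bound hb hzb hne hzn
  have hTz : ∀ a, ω ^ (r * T a) = ω ^ (r * a) * ζ := by
    intro a
    rw [hζ, ← pow_add, ← mul_add]
    exact pow_mod' hω r _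
  have hTinj : Set.InjOn T A := by
    intro a ha a' ha' haa
    have h1 := mem_range.1 (hA ha)
    have h2 := mem_range.1 (hA ha')
    have h3 : a + (M - b ^ e) ≡ a' + (M - b ^ e) [MOD M] := haa
    exact Nat.ModEq.eq_of_lt_of_lt (Nat.ModEq.add_right_cancel' _ h3) h1 h2
  have hsum : ∑ a ∈ A.image T, ω ^ (r * a) = ζ * ∑ a ∈ A, ω ^ (r * a) := by
    rw [sum_image hTinj, mul_sum]
    exact sum_congr rfl fun a _ => by rw [hTz, mul_comm]
  have hcard1 : (A.image T \ A).card ≤ (A.filter fun a => T a ∉ A).card := by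
    refine (card_le_card (t := (A.filter fun a => T a ∉ A).image T) ?_).trans card_image_le
    intro y hy
    rw [mem_sdiff, mem_image] at hy
    obtain ⟨⟨a, ha, rfl⟩, hy2⟩ := hy
    exact mem_image.2 ⟨a, mem_filter.2 ⟨ha, hy2⟩, rfl⟩
  have hcard2 : (A \ A.image T).card = (A.image T \ A).card :=
    card_sdiff_comm (card_image_of_injOn hTinj).symm
  have hdiff : (1 - ζ) * ∑ a ∈ A, ω ^ (r * a) =
      ∑ a ∈ A \ A.image T, ω ^ (r * a) - ∑ a ∈ A.image T \ A, ω ^ (r * a) := by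
    rw [sub_mul, one_mul, ← hsum]
    exact (Finset.sum_sdiff_sub_sum_sdiff).symm
  have hns : ∀ S : Finset ℕ, ‖∑ a ∈ S, ω ^ (r * a)‖ ≤ S.card := by
    intro S
    refine (norm_sum_le _ _).trans ?_
    simp [norm_pow, hn]
  have hB : ‖1 - ζ‖ * ‖∑ a ∈ A, ω ^ (r * a)‖ ≤ 2 * (η * M) := by
    rw [← norm_mul, hdiff]
    refine (norm_sub_le _ _).trans ?_
    have h1 := hns (A \ A.image T)
    have h2 := hns (A.image T \ A)
    have h3 : ((A.image T \ A).card : ℝ) ≤ ((A.filter fun a => T a ∉ A).card : ℝ) := by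
      exact_mod_cast hcard1
    have h4 : ((A \ A.image T).card : ℝ) = ((A.image T \ A).card : ℝ) := by rw [hcard2]
    have h5 : ((A.filter fun a => T a ∉ A).card : ℝ) ≤ η * M := h
    linarith
  have hS : 0 ≤ ‖∑ a ∈ A, ω ^ (r * a)‖ := norm_nonneg _
  have hb0 : (0 : ℝ) ≤ b := Nat.cast_nonneg b
  have h8 : 2 * ‖∑ a ∈ A, ω ^ (r * a)‖ ≤ (b * ‖1 - ζ‖) * ‖∑ a ∈ A, ω ^ (r * a)‖ :=
    mul_le_mul_of_nonneg_right hrb hS
  have h9 : (b : ℝ) * (‖1 - ζ‖ * ‖∑ a ∈ A, ω ^ (r * a)‖) ≤ b * (2 * (η * M)) :=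
    mul_le_mul_of_nonneg_left hB hb0
  linarith

/-- The Fourier transform. -/
noncomputable def hat (ω : ℂ) (M : ℕ) (F : ℕ → ℝ) (r : ℕ) : ℂ :=
  ∑ x ∈ range M, (F x : ℂ) * ω ^ (r * x)

theorem parseval {M : ℕ} (hM : 0 < M) {ω : ℂ} (hω : IsPrimitiveRoot ω M) (F : ℕ → ℝ) :
    ∑ r ∈ range M, ‖hat ω M F r‖ ^ 2 = M * ∑ x ∈ range M, F x ^ 2 := by
  have h1 : ∀ r, ((‖hat ω M F r‖ ^ 2 : ℝ) : ℂ) = ∑ x ∈ range M, ∑ y ∈ range M,
      ((F x * F y : ℝ) : ℂ) * (ω ^ (r * x) * conj (ω ^ (r * y))) := by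
    intro r
    have h2 : ((‖hat ω M F r‖ ^ 2 : ℝ) : ℂ) = hat ω M F r * conj (hat ω M F r) := by
      rw [Complex.mul_conj']
      push_cast
      rfl
    rw [h2, hat, map_sum, sum_mul_sum]
    refine sum_congr rfl fun x _ => sum_congr rfl fun y _ => ?_
    rw [map_mul, Complex.conj_ofReal]
    push_cast
    ring
  have h3 : ((∑ r ∈ range M, ‖hat ω M F r‖ ^ 2 : ℝ) : ℂ) =
      ((M * ∑ x ∈ range M, F x ^ 2 : ℝ) : ℂ) := by
    rw [Complex.ofReal_sum]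
    simp only [h1]
    rw [sum_comm]
    push_cast
    rw [mul_sum]
    refine sum_congr rfl fun x hx => ?_
    rw [sum_comm]
    simp only [← mul_sum]
    have h4 : ∀ y ∈ range M, (F x : ℂ) * (F y : ℂ) *
        ∑ r ∈ range M, ω ^ (r * x) * conj (ω ^ (r * y)) =
        if y = x then (F x : ℂ) * (F y : ℂ) * (M : ℂ) else 0 := by
      intro y hy
      rw [orth hM hω, Nat.mod_eq_of_lt (mem_range.1 hx), Nat.mod_eq_of_lt (mem_range.1 hy)]
      by_cases hxy : y = x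
      · rw [if_pos hxy, if_pos hxy.symm]
      · rw [if_neg hxy, if_neg (fun h => hxy h.symm), mul_zero]
    rw [sum_congr rfl h4, sum_ite_eq' (range M) x, if_pos hx]
    ring
  exact_mod_cast h3

theorem mainId {M : ℕ} (hM : 0 < M) {ω : ℂ} (hω : IsPrimitiveRoot ω M) (f g : ℕ → ℝ)
    (A : Finset ℕ) (hA : A ⊆ range M) :
    ∑ r ∈ range M, hat ω M f r * hat ω M g r * conj (∑ a ∈ A, ω ^ (r * a)) =
      (M : ℂ) * ((∑ x ∈ range M, ∑ y ∈ range M,
        f x * g y * (if (x + y) % M ∈ A then 1 else 0) : ℝ) : ℂ) := by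
  have h1 : ∀ r, hat ω M f r * hat ω M g r * conj (∑ a ∈ A, ω ^ (r * a)) =
      ∑ x ∈ range M, ∑ y ∈ range M, ∑ a ∈ A,
        ((f x * g y : ℝ) : ℂ) * (ω ^ (r * (x + y)) * conj (ω ^ (r * a))) := by
    intro r
    rw [hat, hat, map_sum, sum_mul_sum, sum_mul]
    refine sum_congr rfl fun x _ => ?_
    rw [sum_mul]
    refine sum_congr rfl fun y _ => ?_
    rw [mul_sum]
    refine sum_congr rfl fun a _ => ?_
    rw [mul_add, pow_add]
    push_cast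
    ring
  simp only [h1]
  rw [sum_comm]
  push_cast
  rw [mul_sum]
  refine sum_congr rfl fun x _ => ?_
  rw [sum_comm, mul_sum]
  refine sum_congr rfl fun y _ => ?_
  rw [sum_comm]
  simp only [← mul_sum]
  have h4 : ∀ a ∈ A, ∑ r ∈ range M, ω ^ (r * (x + y)) * conj (ω ^ (r * a)) =
      if (x + y) % M = a then (M : ℂ) else 0 := by
    intro a ha
    rw [orth hM hω, Nat.mod_eq_of_lt (mem_range.1 (hA ha))]
  rw [sum_congr rfl h4, sum_ite_eq A ((x + y) % M)]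
  split_ifs <;> simp <;> ring

theorem cyc' (b K : ℕ) (hb : 2 ≤ b) (f g : ℕ → ℝ) (A : Finset ℕ) (η : ℝ) (h0 : 0 ≤ η)
    (hA : A ⊆ range (b ^ K))
    (h : ∀ e < K, ((A.filter fun a => (a + (b ^ K - b ^ e)) % b ^ K ∉ A).card : ℝ) ≤
      η * (b : ℝ) ^ K) :
    |(∑ x ∈ range (b ^ K), ∑ y ∈ range (b ^ K), f x * g y * (if (x + y) % b ^ K ∈ A then 1 else 0)) -
      (∑ x ∈ range (b ^ K), f x) * (∑ x ∈ range (b ^ K), g x) * A.card / (b : ℝ) ^ K| ≤
      b * η * (b : ℝ) ^ K * √(∑ x ∈ range (b ^ K), f x ^ 2) * √(∑ x ∈ range (b ^ K), g x ^ 2) := by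
  have hM0 : 0 < b ^ K := by positivity
  have hω := Complex.isPrimitiveRoot_exp (b ^ K) hM0.ne'
  generalize Complex.exp (2 * Real.pi * Complex.I / ((b ^ K : ℕ) : ℂ)) = ω at hω
  have hAr := hatA hb hω A η hA h
  have hbR : (b : ℝ) ^ K = ((b ^ K : ℕ) : ℝ) := by push_cast; rfl
  have hB0 : 0 ≤ b * η * (b : ℝ) ^ K := by positivity
  rw [hbR] at hAr hB0 ⊢
  clear h
  generalize b ^ K = M at *
  have hMR : (0 : ℝ) < M := by exact_mod_cast hM0
  have hid := mainId hM0 hω f g A hA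
  set S : ℝ := ∑ x ∈ range M, ∑ y ∈ range M, f x * g y * (if (x + y) % M ∈ A then 1 else 0) with hS
  rw [← add_sum_erase (range M) _ (mem_range.2 hM0)] at hid
  have hz : hat ω M f 0 * hat ω M g 0 * conj (∑ a ∈ A, ω ^ (0 * a)) =
      (((∑ x ∈ range M, f x) * (∑ x ∈ range M, g x) * A.card : ℝ) : ℂ) := by
    simp [hat]
  rw [hz] at hid
  have hre : ((M * (S - (∑ x ∈ range M, f x) * (∑ x ∈ range M, g x) * A.card / M) : ℝ) : ℂ) =
      ∑ r ∈ (range M).erase 0, hat ω M f r * hat ω M g r * conj (∑ a ∈ A, ω ^ (r * a)) := by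
    have h1 : M * (S - (∑ x ∈ range M, f x) * (∑ x ∈ range M, g x) * A.card / M) =
        M * S - (∑ x ∈ range M, f x) * (∑ x ∈ range M, g x) * A.card := by
      field_simp
    rw [h1, Complex.ofReal_sub, Complex.ofReal_mul, Complex.ofReal_natCast, ← hid]
    ring
  have hnorm : M * |S - (∑ x ∈ range M, f x) * (∑ x ∈ range M, g x) * A.card / M| ≤
      (b * η * M) * ∑ r ∈ range M, ‖hat ω M f r‖ * ‖hat ω M g r‖ := by
    have h1 : M * |S - (∑ x ∈ range M, f x) * (∑ x ∈ range M, g x) * A.card / M| =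
        ‖((M * (S - (∑ x ∈ range M, f x) * (∑ x ∈ range M, g x) * A.card / M) : ℝ) : ℂ)‖ := by
      rw [Complex.norm_real, Real.norm_eq_abs, abs_mul, abs_of_pos hMR]
    rw [h1, hre, mul_sum]
    refine (norm_sum_le _ _).trans ?_
    refine (sum_le_sum (g := fun r => (b * η * M) * (‖hat ω M f r‖ * ‖hat ω M g r‖))
      fun r hr => ?_).trans (sum_le_sum_of_subset_of_nonneg (erase_subset _ _)
        fun r _ _ => by positivity)
    rw [mem_erase, mem_range] at hr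
    rw [norm_mul, norm_mul, Complex.norm_conj, mul_comm]
    exact mul_le_mul_of_nonneg_right (hAr r (Nat.pos_of_ne_zero hr.1) hr.2) (by positivity)
  have hcs : ∑ r ∈ range M, ‖hat ω M f r‖ * ‖hat ω M g r‖ ≤
      M * (√(∑ x ∈ range M, f x ^ 2) * √(∑ x ∈ range M, g x ^ 2)) := by
    refine (Real.sum_mul_le_sqrt_mul_sqrt _ _ _).trans_eq ?_
    rw [parseval hM0 hω, parseval hM0 hω, Real.sqrt_mul hMR.le, Real.sqrt_mul hMR.le]
    have h2 : √(M : ℝ) * √(M : ℝ) = M := Real.mul_self_sqrt hMR.le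
    calc _ = (√(M : ℝ) * √(M : ℝ)) *
        (√(∑ x ∈ range M, f x ^ 2) * √(∑ x ∈ range M, g x ^ 2)) := by ring
      _ = _ := by rw [h2]
  have hfin : M * |S - (∑ x ∈ range M, f x) * (∑ x ∈ range M, g x) * A.card / M| ≤
      M * (b * η * M * √(∑ x ∈ range M, f x ^ 2) * √(∑ x ∈ range M, g x ^ 2)) := by
    refine (hnorm.trans (mul_le_mul_of_nonneg_left hcs hB0)).trans_eq ?_
    ring
  exact le_of_mul_le_mul_left hfin hMR

theorem cyc : S_CYC := fun b K hb f g A η hA h0 h => cyc' b K hb f g A η h0 hA h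

end Pool.Agent.H39.DA
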